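import Pool.Agent.Helper56.RZ.GoalsC
import Pool.Agent.Helper74.RZ.K2

/-!
# MP_f32c9c_an, project RZ2, packet K3: blocks of the derivative of the twist, weaker hypothesis
-/

set_option autoImplicit false

open Set Filter Topology MeasureTheory

open scoped ContDiff

namespace Pool.Agent.Helper8.RZ

open Pool.Agent.Helper56.RZ
open Pool.Agent.Helper74.RZ (small_rpow block_est neg_mid)

theorem aux1 {c t : ℝ} (hc : 1 ≤ c) : c * t ^ 2 ≤ (2 * c ^ 2 * t) * t := by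
  have h : 0 ≤ (2 * c ^ 2 - c) * t ^ 2 := by
    apply mul_nonneg _ (sq_nonneg t)
    nlinarith
  nlinarith

theorem aux2 {c t : ℝ} (hc : 1 ≤ c) : c * t ^ 2 + (c * t) * (c * t) ≤ (2 * c ^ 2 * t) * t := by
  have h : 0 ≤ (c ^ 2 - c) * t ^ 2 := by
    apply mul_nonneg _ (sq_nonneg t)
    nlinarith
  nlinarith

theorem aux3 {c R : ℝ} (hc : 1 ≤ c) (hR : 1 ≤ R) : 1 ≤ c * R := by nlinarith

theorem aux4 {k c R m : ℝ} (hk : 0 < k) (hc : 1 ≤ c * R) (h : 2 * (k * c * R) = m) : k ≤ m := by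
  have : k * 1 ≤ k * (c * R) := mul_le_mul_of_nonneg_left hc hk.le
  nlinarith

theorem aux5 {c1 c2 ρ : ℝ} (hc : 1 ≤ c2) (hρ : 0 < ρ) : c1 * ρ ≤ (c1 + c2) * ρ := by nlinarith

theorem aux6 {c1 c2 a : ℝ} (hc1 : 1 ≤ c1) (hc : 1 ≤ c2) (ha : a ≤ 1) : c2 * a ≤ c1 + c2 := by
  nlinarith

theorem aux7 {c R t : ℝ} (hc : 1 ≤ c) (hR : 1 ≤ R) (ht : 0 ≤ t) :
    c * t ≤ R * (2 * c ^ 2 * t) * R := by
  have h3 : 1 ≤ R * R := by nlinarith
  have h4 : c ≤ 2 * c ^ 2 := by nlinarith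
  have h2 : c ≤ R * R * (2 * c ^ 2) := by nlinarith
  calc c * t ≤ (R * R * (2 * c ^ 2)) * t := mul_le_mul_of_nonneg_right h2 ht
    _ = _ := by ring

theorem aux8 {c q x : ℝ} (hc : 1 ≤ c) (hx : 0 ≤ x) (h : x ^ 2 ≤ c * q) (hq : q ≤ 1) : x ≤ c := by
  have h2 : x ^ 2 ≤ c ^ 2 := by
    calc x ^ 2 ≤ c * q := h
      _ ≤ c * 1 := mul_le_mul_of_nonneg_left hq (by linarith)
      _ ≤ c ^ 2 := by nlinarith
  exact (pow_le_pow_iff_left₀ hx (by linarith) (by norm_num)).1 h2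

/-- **K3** (blocks of the derivative of the twist, Euclidean space, weaker hypothesis). -/
theorem k3 : StmtF1 → StmtF3 → StmtK3 := by
  intro F1 F3 N r a r0 z0 ph d hr ha ha1 hr0 hP hcont hN η hη
  have hz0 : z0 ∈ Metric.closedBall z0 r0 := Metric.mem_closedBall_self hr0.le
  obtain ⟨hsm, -, -, hqH, hinv, -, -, c1, hc1, hq⟩ := (F1 N (fun i => ph i z0) (hP z0 hz0)).2 d
  obtain ⟨c2, hc2, hF3⟩ := F3 N (fun i => ph i z0) (hP z0 hz0) d
  -- the constants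
  obtain ⟨R, hR1, hRp⟩ : ∃ R : ℝ, 1 ≤ R ∧ ∀ i, ‖ph i z0‖ + 1 ≤ R := by
    refine ⟨‖ph 0 z0‖ + ‖ph 1 z0‖ + ‖ph 2 z0‖ + 1, ?_, ?_⟩
    · have h0 := norm_nonneg (ph 0 z0)
      have h1 := norm_nonneg (ph 1 z0)
      have h2 := norm_nonneg (ph 2 z0)
      linarith
    · intro i
      have h0 := norm_nonneg (ph 0 z0)
      have h1 := norm_nonneg (ph 1 z0)
      have h2 := norm_nonneg (ph 2 z0)
      fin_cases i
      · change ‖ph 0 z0‖ + 1 ≤ _
        linarith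
      · change ‖ph 1 z0‖ + 1 ≤ _
        linarith
      · change ‖ph 2 z0‖ + 1 ≤ _
        linarith
  have hη3 : 0 < η / 3 := by positivity
  obtain ⟨s1, hs1, hs1'⟩ := small_rpow (R * (2 * c2 ^ 2) * R) 1 (η / 3) (by positivity)
    one_pos hη3
  -- the bound for the distance to the values at `z0`
  obtain ⟨kap, hkap, hkapK⟩ : ∃ kap : ℝ, 0 < kap ∧ 2 * (kap * c2 * R) = min (η / 3) 1 := by
    have hm : 0 < min (η / 3) 1 := lt_min hη3 one_pos
    have hcR : 0 < 2 * (c2 * R) := by positivity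
    refine ⟨min (η / 3) 1 / (2 * (c2 * R)), by positivity, ?_⟩
    rw [show 2 * (min (η / 3) 1 / (2 * (c2 * R)) * c2 * R) =
      min (η / 3) 1 / (2 * (c2 * R)) * (2 * (c2 * R)) by ring]
    exact div_mul_cancel₀ _ hcR.ne'
  obtain ⟨δ, hδ, hδ'⟩ : ∃ δ : ℝ, 0 < δ ∧ ∀ z : E N, ‖z - z0‖ < δ → ∀ i, ‖ph i z - ph i z0‖ ≤ kap := by
    have h1 : ∀ i, ∃ δ : ℝ, 0 < δ ∧ ∀ z : E N, ‖z - z0‖ < δ → ‖ph i z - ph i z0‖ ≤ kap := by
      intro i
      obtain ⟨δ, hδ, h⟩ := Metric.continuousAt_iff.mp (hcont i) kap hkap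
      refine ⟨δ, hδ, fun z hz => ?_⟩
      have h2 := h (x := z) (by rw [dist_eq_norm]; exact hz)
      rw [dist_eq_norm] at h2
      exact h2.le
    choose δ hδ h using h1
    refine ⟨min (δ 0) (min (δ 1) (δ 2)), lt_min (hδ 0) (lt_min (hδ 1) (hδ 2)), fun z hz i => ?_⟩
    apply h i z
    have h0 : z = z := rfl
    fin_cases i
    · exact hz.trans_le (min_le_left _ _)
    · exact hz.trans_le ((min_le_right _ _).trans (min_le_left _ _))
    · exact hz.trans_le ((min_le_right _ _).trans (min_le_right _ _))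
  obtain ⟨s2, hs2, hs2'⟩ : ∃ s2 : ℝ, 0 < s2 ∧ ∀ ρ : ℝ, 0 < ρ → ρ ≤ s2 → c1 * ρ < δ := by
    refine ⟨δ / (2 * c1), by positivity, fun ρ hρ h => ?_⟩
    have h1 : ρ * (2 * c1) ≤ δ := (le_div_iff₀ (by positivity)).1 h
    nlinarith
  obtain ⟨s3, hs3, hs3'⟩ := hN (c1 + c2) (by positivity) (η / 3 * a / R) (by positivity)
  refine ⟨min (min 1 (r0 / c1)) (min s1 (min s2 s3)), ?_, ?_⟩
  · have : 0 < r0 / c1 := by positivity
    exact lt_min (lt_min one_pos this) (lt_min hs1 (lt_min hs2 hs3))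
  intro ρ hρ hρle y hqy
  have hρ1 : ρ ≤ 1 := hρle.trans ((min_le_left _ _).trans (min_le_left _ _))
  have hρr : ρ ≤ r0 / c1 := hρle.trans ((min_le_left _ _).trans (min_le_right _ _))
  have hρs : ρ ≤ min s1 (min s2 s3) := hρle.trans (min_le_right _ _)
  have q1 := hs1' ρ hρ (hρs.trans (min_le_left _ _))
  have q2 := hs2' ρ hρ (hρs.trans ((min_le_right _ _).trans (min_le_left _ _)))
  have q3 := hs3' ρ hρ (hρs.trans ((min_le_right _ _).trans (min_le_right _ _)))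
  rw [Real.rpow_one] at q1
  -- the time
  obtain ⟨t, htdef⟩ : ∃ t : ℝ, t = a * ρ ^ (r - 1) := ⟨_, rfl⟩
  rw [← htdef]
  have ht0 : 0 < t := by rw [htdef]; positivity
  have htρ : t ≤ ρ := by
    rw [htdef]
    have : ρ ^ (r - 1) ≤ ρ := pow_le_of_le_one hρ.le hρ1 (by omega)
    calc a * ρ ^ (r - 1) ≤ 1 * ρ := mul_le_mul ha1 this (by positivity) (by norm_num)
      _ = ρ := one_mul _
  have ht1 : t ≤ 1 := htρ.trans hρ1
  have habs : |t| = t := abs_of_pos ht0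
  have habs' : |(-t)| = t := by rw [abs_neg, habs]
  -- points
  have hnorm : ∀ w : E N, d.q w ≤ 1 → ‖w‖ ≤ c1 := by
    intro w hw
    exact aux8 hc1 (norm_nonneg _) (hq w).1 hw
  have hqy' : d.q (d.H t y) ≤ 1 := by rw [hqH]; exact hqy
  have hball : ∀ w : E N, d.q w ≤ 1 → z0 + ρ • w ∈ Metric.closedBall z0 r0 ∧
      ‖z0 + ρ • w - z0‖ ≤ c1 * ρ := by
    intro w hw
    have h1 : ‖z0 + ρ • w - z0‖ ≤ c1 * ρ := by
      rw [add_sub_cancel_left, norm_smul, Real.norm_of_nonneg hρ.le, mul_comm]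
      exact mul_le_mul_of_nonneg_right (hnorm w hw) hρ.le
    refine ⟨?_, h1⟩
    rw [Metric.mem_closedBall, dist_eq_norm]
    refine h1.trans ?_
    rw [mul_comm]
    exact (le_div_iff₀ (by linarith)).1 hρr
  obtain ⟨hb1, hn1⟩ := hball y hqy
  obtain ⟨hb2, hn2⟩ := hball (d.H t y) hqy'
  obtain ⟨f1, f2, f3, f4⟩ := hF3 t y (by rw [habs]; exact ht1)
  obtain ⟨-, g2, -, -⟩ := hF3 (-t) (d.H t y) (by rw [habs']; exact ht1)
  rw [habs] at f1 f2
  rw [habs'] at g2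
  have hn3 : ‖z0 + ρ • d.H t y - (z0 + ρ • y)‖ ≤ c2 * (ρ * t) := by
    rw [add_sub_add_left_eq_sub, ← smul_sub, norm_smul, Real.norm_of_nonneg hρ.le]
    calc ρ * ‖d.H t y - y‖ ≤ ρ * (c2 * t) := mul_le_mul_of_nonneg_left f1 hρ.le
      _ = c2 * (ρ * t) := by ring
  -- derivatives
  have hdiff : ∀ s : ℝ, Differentiable ℝ (d.H s) := by
    intro s
    have h1 : ContDiff ℝ ∞ (fun z : E N => d.H s z) :=
      hsm.comp (contDiff_const.prodMk contDiff_id)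
    exact h1.differentiable (by simp)
  have hST : fderiv ℝ (d.H (-t)) (d.H t y) * fderiv ℝ (d.H t) y = 1 := by
    have h1 : HasFDerivAt (fun z => d.H (-t) (d.H t z))
        (fderiv ℝ (d.H (-t)) (d.H t y) ∘L fderiv ℝ (d.H t) y) y :=
      ((hdiff (-t)) (d.H t y)).hasFDerivAt.comp y ((hdiff t) y).hasFDerivAt
    have h2 : (fun z => d.H (-t) (d.H t z)) = fun z => z := by
      funext z
      exact hinv t z
    rw [h2] at h1
    exact h1.unique (hasFDerivAt_id y)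
  have hTS : fderiv ℝ (d.H t) y * fderiv ℝ (d.H (-t)) (d.H t y) = 1 := by
    have h1 : HasFDerivAt (fun z => d.H t (d.H (-t) z))
        (fderiv ℝ (d.H t) (d.H (-t) (d.H t y)) ∘L fderiv ℝ (d.H (-t)) (d.H t y)) (d.H t y) :=
      ((hdiff t) (d.H (-t) (d.H t y))).hasFDerivAt.comp _ ((hdiff (-t)) (d.H t y)).hasFDerivAt
    have h2 : (fun z => d.H t (d.H (-t) z)) = fun z => z := by
      funext z
      have := hinv (-t) z
      rwa [neg_neg] at this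
    rw [h2, hinv] at h1
    exact h1.unique (hasFDerivAt_id _)
  have hS2 : ‖fderiv ℝ (d.H (-t)) (d.H t y) - 1 - t • (-(fderiv ℝ d.X y))‖
      ≤ (2 * c2 ^ 2 * t) * t := by
    have h1 : fderiv ℝ (d.H (-t)) (d.H t y) - 1 - t • (-(fderiv ℝ d.X y)) =
        -(fderiv ℝ (d.H t) y - 1 - t • fderiv ℝ d.X y) -
          (fderiv ℝ (d.H (-t)) (d.H t y) - 1) * (fderiv ℝ (d.H t) y - 1) := by
      rw [sub_mul, mul_sub, hST]
      simp only [mul_one, one_mul, smul_neg]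
      abel
    rw [h1]
    calc ‖-(fderiv ℝ (d.H t) y - 1 - t • fderiv ℝ d.X y) -
          (fderiv ℝ (d.H (-t)) (d.H t y) - 1) * (fderiv ℝ (d.H t) y - 1)‖
        ≤ ‖-(fderiv ℝ (d.H t) y - 1 - t • fderiv ℝ d.X y)‖ +
          ‖(fderiv ℝ (d.H (-t)) (d.H t y) - 1) * (fderiv ℝ (d.H t) y - 1)‖ := norm_sub_le _ _
      _ ≤ c2 * t ^ 2 + (c2 * t) * (c2 * t) := by
          rw [norm_neg]
          refine add_le_add f3 ((norm_mul_le _ _).trans
            (mul_le_mul g2 f2 (norm_nonneg _) (by positivity)))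
      _ ≤ (2 * c2 ^ 2 * t) * t := aux2 hc2
  have hT2 : ‖fderiv ℝ (d.H t) y - 1 - t • fderiv ℝ d.X y‖ ≤ (2 * c2 ^ 2 * t) * t :=
    f3.trans (aux1 hc2)
  -- the estimates of the differences
  have hkapmin : kap ≤ min (η / 3) 1 := aux4 hkap (aux3 hc2 hR1) hkapK
  have hkap1 : kap ≤ 1 := hkapmin.trans (min_le_right _ _)
  have hkapη : kap ≤ η := by
    have := hkapmin.trans (min_le_left _ _)
    linarith
  have hk1 : ∀ i, ‖ph i (z0 + ρ • y) - ph i z0‖ ≤ kap :=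
    fun i => hδ' _ (hn1.trans_lt q2) i
  have hk2 : ∀ i, ‖ph i (z0 + ρ • d.H t y) - ph i z0‖ ≤ kap :=
    fun i => hδ' _ (hn2.trans_lt q2) i
  have hρt : c2 * (ρ * t) ≤ (c1 + c2) * ρ ^ r := by
    have e1 : c2 * (ρ * t) = (c2 * a) * ρ ^ r := by
      rw [htdef]
      obtain ⟨k, rfl⟩ : ∃ k, r = k + 1 := ⟨r - 1, by omega⟩
      rw [Nat.add_sub_cancel, pow_succ]
      ring
    rw [e1]
    exact mul_le_mul_of_nonneg_right (aux6 hc1 hc2 ha1) (by positivity)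
  have hc1ρ : c1 * ρ ≤ (c1 + c2) * ρ := aux5 hc2 hρ
  have hk3 : ∀ i, ‖ph i (z0 + ρ • d.H t y) - ph i (z0 + ρ • y)‖ ≤ η / 3 * a / R * ρ ^ (r - 1) :=
    fun i => q3 _ _ (hn2.trans hc1ρ) (hn1.trans hc1ρ) (hn3.trans hρt) i
  have hk4 : ∀ i, ‖ph i (z0 + ρ • y) - ph i (z0 + ρ • d.H t y)‖ ≤ η / 3 * a / R * ρ ^ (r - 1) := by
    intro i
    rw [norm_sub_rev]
    exact hk3 i
  have hR0 : ∀ i, ‖ph i z0‖ ≤ R := fun i => by linarith [hRp i]
  have hRA : ∀ i, ‖ph i (z0 + ρ • y)‖ ≤ R := by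
    intro i
    have h1 := norm_le_norm_add_norm_sub' (ph i (z0 + ρ • y)) (ph i z0)
    have h2 := hk1 i
    have h3 := hRp i
    linarith
  have hRB : ∀ i, ‖ph i (z0 + ρ • d.H t y)‖ ≤ R := by
    intro i
    have h1 := norm_le_norm_add_norm_sub' (ph i (z0 + ρ • d.H t y)) (ph i z0)
    have h2 := hk2 i
    have h3 := hRp i
    linarith
  have hlam : η / 3 * a / R * ρ ^ (r - 1) * R ≤ η / 3 * t := by
    rw [htdef]
    have hR0' : R ≠ 0 := by positivity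
    have e1 : η / 3 * a / R * ρ ^ (r - 1) * R = η / 3 * (a * ρ ^ (r - 1)) := by
      field_simp
    rw [e1]
  have he : R * (2 * c2 ^ 2 * t) * R ≤ η / 3 := by
    refine le_trans ?_ q1
    calc R * (2 * c2 ^ 2 * t) * R = R * (2 * c2 ^ 2) * R * t := by ring
      _ ≤ R * (2 * c2 ^ 2) * R * ρ := mul_le_mul_of_nonneg_left htρ (by positivity)
  have hc2t : c2 * t ≤ η := by
    have h1 : c2 * t ≤ R * (2 * c2 ^ 2 * t) * R := aux7 hc2 hR1 ht0.le
    linarith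
  have h3 : 2 * (kap * c2 * R) ≤ η / 3 := hkapK.le.trans (min_le_left _ _)
  refine ⟨hb1, hb2, hTS, hST, f2.trans hc2t, g2.trans hc2t,
    fun i => ⟨(hk1 i).trans hkapη, (hk2 i).trans hkapη⟩, ?_⟩
  intro i j hij
  have hpA := (hP _ hb1).proj i j
  have hpB := (hP _ hb2).proj i j
  rw [if_neg hij] at hpA hpB
  constructor
  · refine block_est (ph i (z0 + ρ • y)) _ _ _ _ _ _ R
      (η / 3 * a / R * ρ ^ (r - 1)) kap (2 * c2 ^ 2 * t) t c2 η ht0.le hR1 hc2 ?_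
      (hRA j) (hRB i) (hR0 i) (hk3 i) (hk2 i) (hk1 j) hT2 f4 hlam he h3
    rw [sub_mul]
    change ph i (z0 + ρ • y) * ph j (z0 + ρ • y) = 0 at hpA
    rw [hpA, sub_zero]
  · have h4 := block_est (ph i (z0 + ρ • d.H t y)) (ph j (z0 + ρ • d.H t y))
      (ph i (z0 + ρ • y)) (ph i z0) (ph j z0)
      (fderiv ℝ (d.H (-t)) (d.H t y)) (-(fderiv ℝ d.X y)) R
      (η / 3 * a / R * ρ ^ (r - 1)) kap (2 * c2 ^ 2 * t) t c2 η ht0.le hR1 hc2 ?_
      (hRB j) (hRA i) (hR0 i) (hk4 i) (hk1 i) (hk2 j) hS2 (by rw [norm_neg]; exact f4) hlam he h3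
    · rw [neg_mid, smul_neg, sub_neg_eq_add] at h4
      exact h4
    · rw [sub_mul]
      change ph i (z0 + ρ • d.H t y) * ph j (z0 + ρ • d.H t y) = 0 at hpB
      rw [hpB, sub_zero]

end Pool.Agent.Helper8.RZ
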